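import Pool.Agent.Helper7.SH.GOKL
import Pool.Agent.Helper50.SH.GR2
import Pool.Agent.Helper42.SH.EH

/-!
# SHARP, link (6): the local part of the linear form in the format of the budget

`gLOC` is the datum (weights `rwZ`, `rwP`, `rwR` and three error lists) of `LinP - TailL` at the base of zone I.
-/

set_option autoImplicit false

open MeasureTheory Set Filter Topology

namespace Pool.Agent.Helper7.GK

open Helper49.LT hiding sg s3
open Helper49.Sharp
open Helper56.RC (fc)
open Pool.Agent.Helper33.SH (PI ZC b0I z0I)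
open Pool.Agent.Helper33.GL (TailL RB)
open Pool.Agent.Helper43.SH (LinP)
open Helper27.SH (P2 evR)
open Pool.Agent.Helper27.SH (GD GOK ofP ofP_le rsum evN)
open Pool.Agent.Helper33.GM

theorem hStRl : StRl := fun _ _ _ _ _ _ _ _ hA hr ds hj hm h => stR' hA hr ds hj hm h

/-- the error of the `ρ` line -/
def EZl : P2 := [(0, 6, 2557 / 100), (1, 5, 9341 / 100), (2, 4, 1087 / 5), (3, 3, 1009 / 5), (4, 2, 8387 / 100),
  (5, 1, 3563 / 100), (6, 0, 4667 / 1000), (0, 7, 9200), (1, 6, 39320), (2, 5, 76000), (3, 4, 80400), (4, 3, 47600),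
  (5, 2, 15280), (6, 1, 2476), (7, 0, 868 / 5)]

/-- the error of the `Re β` line -/
def EXl : P2 := [(0, 6, 3107), (1, 5, 11869), (2, 4, 19883), (3, 3, 16695), (4, 2, 7008), (5, 1, 1411),
  (6, 0, 1191 / 10)]

/-- the error of the `Im β` line -/
def EYl : P2 := [(0, 6, 5525), (1, 5, 21090), (2, 4, 35560), (3, 3, 29907), (4, 2, 12548), (5, 1, 2585),
  (6, 0, 1108 / 5)]

theorem cZl : leR EZl (eZl Helper42.SH.dP) = true := by decide +kernel
theorem cXl : leR EXl (eXl Helper42.SH.dP) = true := by decide +kernel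
theorem cYl : leR EYl (eYl Helper42.SH.dP) = true := by decide +kernel

/-- **the local part of the linear form, in the format of the budget** -/
def gLOC : GD := ⟨rwZ dz qz, rwP dx qx, rwR dy qy, ofP EZl, ofP EXl, ofP EYl⟩

theorem gok_loc {c : ZC} {A : ℝ} {B : ℂ} (ok : OKc c A B) (hρ : 100 ≤ c.rho) (hm : c.lam ≤ c.m) (hA : 0 ≤ A)
    (hR : A + 8 / 5 * ‖B‖ ≤ 1 / 5) {β ρ : ℝ → ℂ} (h : RB β ρ) :
    GOK A B gLOC (fc ρ) (fc fun t => ((β t).re : ℂ)) (fc fun t => ((β t).im : ℂ)) (mean fun t => ‖ρ t‖ ^ 2)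
      (mean fun t => (β t).re ^ 2) (mean fun t => (β t).im ^ 2)
      (LinP (PI c A B) (b0I A B) (z0I A B) β ρ - TailL (PI c A B) (b0I A B) (z0I A B) β ρ) := by
  have hB := norm_nonneg B
  exact gok_gen hStRl ok hρ hm hA (by linarith) (Helper42.SH.hEH c hA hR) cZl cXl cYl h

end Pool.Agent.Helper7.GK
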