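import Pool.Agent.Helper33.SH.GLists

/-!
# SHARP, link (6): the explicit rows at the base (module StX)
-/

set_option autoImplicit false

open MeasureTheory Set Filter Topology

namespace Pool.Agent.Helper7.GX

open Helper49.LT hiding sg s3
open Helper49.RC (om)
open Helper49.Sharp
open Helper56.RC (fc)
open Helper87.RC (BM fc_add fc_sub fc_cmul)
open Pool.Agent.Helper20.RC (lk wR lk_ge)
open Pool.Agent.Helper35.Cas
open Pool.Agent.Helper43.SH (b2p b3p b2B b3B bB)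
open Pool.Agent.Helper33.SH (PI ZC b0I z0I cI addF mulF evP_addF evP_mulF)
open Pool.Agent.Helper33.GL (El qb X0 Y0)
open Pool.Agent.Helper33.GM

/-! ### lists -/

/-- all coefficients vanish after merging -/
def isZ (p : Po) : Bool := (addF p []).all fun x => decide (x.2 = (0, 0))

theorem isZ_aux (u v : ℂ) : ∀ p : Po, (p.all fun x => decide (x.2 = (0, 0))) = true → evP u v p = 0
  | [], _ => rfl
  | x :: p, h => by
    rw [List.all_cons, Bool.and_eq_true, decide_eq_true_eq] at h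
    rw [evP_cons, isZ_aux u v p h.2, h.1]
    simp [evC]

theorem isZ_ok (u v : ℂ) {p : Po} (h : isZ p = true) : evP u v p = 0 := by
  have h1 := isZ_aux u v _ h
  rw [evP_addF, evP_nil, add_zero] at h1
  exact h1

/-- difference -/
def sbF (p q : Po) : Po := addF p (smP (-1, 0) q)

theorem evC_i (n : ℤ) : evC (n, 0) = (n : ℂ) := by simp [evC]

theorem evP_sbF (u v : ℂ) (p q : Po) : evP u v (sbF p q) = evP u v p - evP u v q := by
  unfold sbF
  rw [evP_addF, evP_sm, evC_i]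
  push_cast
  ring

/-- the value of the part of the frequency `l` -/
theorem fl_ee (A B : ℂ) (l : ℤ) (t : ℝ) : ∀ p : Po,
    evP (uu A t) (vv B t) (fl l p) = evP A B (fl l p) * ee ((l : ℝ) * t)
  | [] => by simp [fl]
  | x :: p => by
    rw [fl]
    split_ifs with h
    · rw [evP_cons, evP_cons, fl_ee A B l t p, evM_uv]
      have h2 : 3 * (x.1.2.1 : ℤ) + 5 * (x.1.2.2.2 : ℤ) - 3 * (x.1.1 : ℤ) - 5 * (x.1.2.2.1 : ℤ) = l := h
      rw [h2]
      ring
    · exact fl_ee A B l t p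

theorem evP_BM (A B : ℂ) (p : Po) : ∃ C, BM (fun t => evP (uu A t) (vv B t) p) C := by
  induction p with
  | nil => exact ⟨0, ⟨measurable_const, fun t => by simp⟩⟩
  | cons x p ih =>
    obtain ⟨C, hC⟩ := ih
    have e : (fun t => evP (uu A t) (vv B t) (x :: p)) = fun t =>
        (evC x.2 * evM A B x.1) * ee (((frq x.1 : ℤ) : ℝ) * t) + evP (uu A t) (vv B t) p := by
      funext t
      rw [evP_cons, evM_uv]
      unfold frq
      ring
    rw [e]
    have h1 : BM (fun t : ℝ => ee (((frq x.1 : ℤ) : ℝ) * t)) 1 := BM.eec _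
    exact ⟨_, (h1.cmul _).add hC⟩

/-- Fourier coefficients -/
theorem fc_evP (A B : ℂ) (n : ℤ) (p : Po) : fc (fun t => evP (uu A t) (vv B t) p) n = evP A B (fl n p) := by
  induction p with
  | nil => simp [fl, fc]
  | cons x p ih =>
    obtain ⟨C, hC⟩ := evP_BM A B p
    have e : (fun t => evP (uu A t) (vv B t) (x :: p)) = fun t =>
        (evC x.2 * evM A B x.1) * ee (((frq x.1 : ℤ) : ℝ) * t) + evP (uu A t) (vv B t) p := by
      funext t
      rw [evP_cons, evM_uv]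
      unfold frq
      ring
    have h1 : BM (fun t : ℝ => ee (((frq x.1 : ℤ) : ℝ) * t)) 1 := BM.eec _
    rw [e, fc_add (h1.cmul _) hC, fc_cmul, Pool.Agent.Helper20.RC.fc_eek, ih, fl]
    by_cases h : frq x.1 = n
    · rw [if_pos h.symm, if_pos h, evP_cons]
      ring
    · rw [if_neg (fun h9 => h h9.symm), if_neg h]
      ring

/-! ### the base -/

/-- `w` -/
def wP : Po := [((0, 0, 0, 0), (1, 0)), ((1, 0, 0, 1), (-2, 0)), ((0, 1, 1, 0), (-2, 0))]
/-- `200 b₂` -/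
def b2P : Po := [((1, 1, 0, 0), (33, 0)), ((0, 0, 1, 1), (-45, 0)), ((1, 0, 0, 1), (-62, 0)), ((0, 1, 1, 0), (-62, 0)),
  ((0, 2, 0, 0), (-11, 0)), ((2, 0, 0, 0), (-11, 0)), ((0, 1, 0, 1), (57, 0)), ((1, 0, 1, 0), (57, 0)),
  ((0, 0, 0, 2), (10, 0)), ((0, 0, 2, 0), (10, 0))]
/-- `200 i b₃` -/
def b3P : Po := [((1, 0, 0, 1), (76, 0)), ((0, 1, 1, 0), (-76, 0)), ((0, 2, 0, 0), (56, 0)), ((2, 0, 0, 0), (-56, 0)),
  ((0, 1, 0, 1), (-102, 0)), ((1, 0, 1, 0), (102, 0)), ((0, 0, 0, 2), (9, 0)), ((0, 0, 2, 0), (-9, 0))]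
/-- `400 α` -/
def alP : Po := mulF wP (addF (smP (2, 0) b2P) b3P)
/-- `200 (h0)` -/
def g0P : Po := [((1, 1, 0, 0), (33, 0)), ((0, 0, 1, 1), (-45, 0))]
/-- `200 σ` -/
def sgP : Po := sbF (fl 2 (mulF wP b2P)) (fl 2 (mulF wP b3P))

section

variable (c : ZC) (A : ℝ) (B : ℂ) (t : ℝ)

theorem uv2 : uu (A : ℂ) t * (starRingEnd ℂ) (vv B t) = (A : ℂ) * (starRingEnd ℂ) B * ee (2 * t) := by
  unfold uu vv
  rw [map_mul, conj_ee, show 2 * t = -3 * t + -(-5 * t) by ring, ee_add]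
  ring

theorem eta_eq : (PI c A B).eta * ee (2 * t) = -2 * (uu (A : ℂ) t * (starRingEnd ℂ) (vv B t)) := by
  rw [uv2]
  show (-2 * (A : ℂ) * (starRingEnd ℂ) B) * ee (2 * t) = _
  ring

theorem eta_cj : (starRingEnd ℂ) (PI c A B).eta * ee (-2 * t)
    = -2 * ((starRingEnd ℂ) (uu (A : ℂ) t) * vv B t) := by
  have h := congrArg (starRingEnd ℂ) (eta_eq c A B t)
  have h2 : (starRingEnd ℂ) (2 : ℂ) = 2 := Complex.conj_ofReal 2
  rw [map_mul, conj_ee, map_mul, map_mul, map_neg, h2, Complex.conj_conj] at h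
  rw [show -2 * t = -(2 * t) by ring]
  exact h

theorem w_eq : (((PI c A B).w t : ℝ) : ℂ) = evP (uu (A : ℂ) t) (vv B t) wP := by
  have h1 : (PI c A B).w t = 1 + 2 * ((PI c A B).eta * ee (2 * t)).re := by
    show wR (PI c A B).eta 0 0 t = _
    unfold wR
    rw [zero_mul, zero_mul, add_zero, add_zero]
  have h2 : ((2 * ((PI c A B).eta * ee (2 * t)).re : ℝ) : ℂ)
      = (PI c A B).eta * ee (2 * t) + (starRingEnd ℂ) ((PI c A B).eta * ee (2 * t)) := by
    rw [Complex.add_conj]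
  rw [h1]
  push_cast at h2 ⊢
  rw [h2, map_mul, conj_ee, show -(2 * t) = -2 * t by ring, eta_eq, eta_cj]
  unfold wP
  simp only [evP_cons, evP_nil, evC_i, evM, pow_zero, pow_one, mul_one, one_mul]
  push_cast
  ring

theorem two_re' (x : ℂ) : ((2 * x.re : ℝ) : ℂ) = x + (starRingEnd ℂ) x := by
  rw [Complex.add_conj]

theorem nsq (x : ℂ) : ((‖x‖ : ℝ) : ℂ) ^ 2 = x * (starRingEnd ℂ) x := by
  rw [Complex.mul_conj, Complex.normSq_eq_norm_sq]
  push_cast
  ring

theorem b2_eq : ((((b0I A B t).re : ℝ)) : ℂ) = evP (uu (A : ℂ) t) (vv B t) b2P / 200 := by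
  have h0 : (b0I A B t).re = b2p cI (uu (A : ℂ) t) (vv B t) := by
    show (bB cI A B t).re = _
    rw [Pool.Agent.Helper43.SH.bB_re]
    rfl
  rw [h0]
  unfold b2p
  set u := uu (A : ℂ) t
  set v := vv B t
  have h1 := two_re' (((cI.k3 : ℝ) : ℂ) * (u * (starRingEnd ℂ) v) + (cI.k4 : ℂ) * ((starRingEnd ℂ) u * (starRingEnd ℂ) u)
    + (cI.k5 : ℂ) * ((starRingEnd ℂ) u * (starRingEnd ℂ) v) + (cI.k6 : ℂ) * ((starRingEnd ℂ) v * (starRingEnd ℂ) v))
  rw [Complex.ofReal_add, h1]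
  simp only [map_add, map_mul, Complex.conj_ofReal, Complex.conj_conj]
  unfold b2P
  simp only [evP_cons, evP_nil, evC_i, evM, pow_zero, pow_one, mul_one, one_mul]
  push_cast
  rw [nsq, nsq]
  simp only [cI]
  push_cast
  ring

theorem b3_eq : Complex.I * ((((b0I A B t).im : ℝ)) : ℂ) = evP (uu (A : ℂ) t) (vv B t) b3P / 200 := by
  have h0 : (b0I A B t).im = b3p cI (uu (A : ℂ) t) (vv B t) := by
    show (bB cI A B t).im = _
    rw [Pool.Agent.Helper43.SH.bB_im]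
    rfl
  rw [h0]
  unfold b3p
  set u := uu (A : ℂ) t
  set v := vv B t
  have h1 := two_re' (Complex.I * (((cI.l3 : ℝ) : ℂ) * (u * (starRingEnd ℂ) v)
    + (cI.l4 : ℂ) * ((starRingEnd ℂ) u * (starRingEnd ℂ) u)
    + (cI.l5 : ℂ) * ((starRingEnd ℂ) u * (starRingEnd ℂ) v) + (cI.l6 : ℂ) * ((starRingEnd ℂ) v * (starRingEnd ℂ) v)))
  rw [h1]
  simp only [map_add, map_mul, Complex.conj_ofReal, Complex.conj_conj, Complex.conj_I]
  unfold b3P
  simp only [evP_cons, evP_nil, evC_i, evM, pow_zero, pow_one, mul_one, one_mul]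
  simp only [cI]
  push_cast
  have hI : Complex.I * Complex.I = -1 := Complex.I_mul_I
  linear_combination ((-(19 / 50) * (u * (starRingEnd ℂ) v) - 7 / 25 * ((starRingEnd ℂ) u) ^ 2
    + 51 / 100 * ((starRingEnd ℂ) u * (starRingEnd ℂ) v) - 9 / 200 * ((starRingEnd ℂ) v) ^ 2)
    - (-(19 / 50) * ((starRingEnd ℂ) u * v) - 7 / 25 * u ^ 2
    + 51 / 100 * (u * v) - 9 / 200 * v ^ 2)) * hI

theorem al_fun : (PI c A B).al (b0I A B) = fun t => 1 / 400 * evP (uu (A : ℂ) t) (vv B t) alP := by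
  funext t
  show ((PI c A B).w t : ℂ) * ((((b0I A B) t).re : ℂ) + Complex.I * ((((b0I A B) t).im / 2 : ℝ) : ℂ)) = _
  have h3 := b3_eq A B t
  have e : Complex.I * ((((b0I A B) t).im / 2 : ℝ) : ℂ) = evP (uu (A : ℂ) t) (vv B t) b3P / 400 := by
    push_cast
    linear_combination (1 / 2 : ℂ) * h3
  rw [e, w_eq, b2_eq]
  unfold alP
  rw [evP_mulF, evP_addF, evP_sm, evC_i]
  push_cast
  ring

theorem al_fc (n : ℤ) : fc ((PI c A B).al (b0I A B)) n = 1 / 400 * evP A B (fl n alP) := by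
  rw [al_fun, fc_cmul, fc_evP]

theorem al_fce (n : ℤ) : fc ((PI c A B).al (b0I A B)) n * ee ((n : ℝ) * t)
    = 1 / 400 * evP (uu (A : ℂ) t) (vv B t) (fl n alP) := by
  rw [al_fc, fl_ee]
  ring

theorem sig_ee : (PI c A B).sig (b0I A B) * ee (2 * t) = evP (uu (A : ℂ) t) (vv B t) sgP / 200 := by
  have h2 : fc (fun t => (((PI c A B).w t * (b0I A B t).re : ℝ) : ℂ)) 2 = 1 / 200 * evP A B (fl 2 (mulF wP b2P)) := by
    have e : (fun t => (((PI c A B).w t * (b0I A B t).re : ℝ) : ℂ))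
        = fun t => 1 / 200 * evP (uu (A : ℂ) t) (vv B t) (mulF wP b2P) := by
      funext t
      rw [Complex.ofReal_mul, w_eq, b2_eq, evP_mulF]
      ring
    rw [e, fc_cmul, fc_evP]
  have h3 : Complex.I * fc (fun t => (((PI c A B).w t * (b0I A B t).im : ℝ) : ℂ)) 2
      = 1 / 200 * evP A B (fl 2 (mulF wP b3P)) := by
    rw [← fc_cmul]
    have e : (fun t => Complex.I * (((PI c A B).w t * (b0I A B t).im : ℝ) : ℂ))
        = fun t => 1 / 200 * evP (uu (A : ℂ) t) (vv B t) (mulF wP b3P) := by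
      funext t
      rw [Complex.ofReal_mul, evP_mulF, w_eq]
      linear_combination (evP (uu (A : ℂ) t) (vv B t) wP) * b3_eq A B t
    rw [e, fc_cmul, fc_evP]
  have h4 : (PI c A B).sig (b0I A B) = 1 / 200 * evP A B (fl 2 (mulF wP b2P)) - 1 / 200 * evP A B (fl 2 (mulF wP b3P)) := by
    rw [← h2, ← h3]
    rfl
  rw [h4]
  unfold sgP
  rw [evP_sbF, fl_ee, fl_ee]
  push_cast
  ring

/-- without the harmonics `± 2` -/
theorem dal_fc {n : ℤ} (h1 : n ≠ 2) (h2 : n ≠ -2) :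
    fc ((PI c A B).dal (b0I A B)) n = 1 / 400 * evP A B (fl n alP) := by
  obtain ⟨C, hC⟩ := evP_BM A B alP
  have hb : BM ((PI c A B).al (b0I A B)) (‖(1 / 400 : ℂ)‖ * C) := by
    rw [al_fun]
    exact hC.cmul _
  have b1 : BM (fun t : ℝ => ee (((2 : ℤ) : ℝ) * t)) 1 := BM.eec _
  have b2 : BM (fun t : ℝ => ee (((-2 : ℤ) : ℝ) * t)) 1 := BM.eec _
  have e : (PI c A B).dal (b0I A B) = fun t => ((PI c A B).al (b0I A B) t
      - fc ((PI c A B).al (b0I A B)) 2 * ee (((2 : ℤ) : ℝ) * t))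
      - fc ((PI c A B).al (b0I A B)) (-2) * ee (((-2 : ℤ) : ℝ) * t) := by
    funext t
    show noh2 ((PI c A B).al (b0I A B)) t - 0 = _
    unfold noh2
    push_cast
    ring
  rw [e, fc_sub (hb.sub (b1.cmul _)) (b2.cmul _), fc_sub hb (b1.cmul _), fc_cmul, fc_cmul,
    Pool.Agent.Helper20.RC.fc_eek, Pool.Agent.Helper20.RC.fc_eek, if_neg h1, if_neg h2, al_fc]
  ring

theorem Hk_ee (k : ℕ) : Hk ((PI c A B).dal (b0I A B)) (k + 1) * ee (lk (k + 1) * t) = 1 / 800 *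
    (evP (uu (A : ℂ) t) (vv B t) (fl (2 * (k : ℤ) + 4) alP) / ((lk (k + 1) : ℂ) + 1)
      - evP (uu (A : ℂ) t) (vv B t) (cjP (fl (-(2 * (k : ℤ) + 4)) alP)) / ((lk (k + 1) : ℂ) - 1)) := by
  have e1 : (2 * ((k + 1 : ℕ) : ℤ) + 2) = 2 * (k : ℤ) + 4 := by push_cast; ring
  have el : lk (k + 1) = ((2 * (k : ℤ) + 4 : ℤ) : ℝ) := by
    unfold lk
    push_cast
    ring
  unfold Hk
  rw [e1, dal_fc c A B (by omega) (by omega), dal_fc c A B (by omega) (by omega), fl_ee, evP_cj, fl_ee, map_mul, map_mul,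
    conj_ee, ← el]
  have h1 : (starRingEnd ℂ) (1 / 400 : ℂ) = 1 / 400 := by
    have := Complex.conj_ofReal (1 / 400)
    push_cast at this
    exact this
  have h2 : -(((-(2 * (k : ℤ) + 4) : ℤ) : ℝ) * t) = lk (k + 1) * t := by
    rw [el]
    push_cast
    ring
  rw [h1, h2]
  ring

theorem H0_eq : (((PI c A B).H0 (b0I A B) : ℝ) : ℂ) = 1 / 400 * evP (uu (A : ℂ) t) (vv B t) (fl 0 alP) := by
  have h1 : fc ((PI c A B).dal (b0I A B)) 0 = 1 / 400 * evP (A : ℂ) B (fl 0 alP) := dal_fc c A B (by omega) (by omega)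
  have h2 : (starRingEnd ℂ) (fc ((PI c A B).dal (b0I A B)) 0) = fc ((PI c A B).dal (b0I A B)) 0 := by
    have h3 : (starRingEnd ℂ) (1 / 400 : ℂ) = 1 / 400 := by
      have := Complex.conj_ofReal (1 / 400)
      push_cast at this
      exact this
    rw [h1, map_mul, h3, ← evP_cj]
    have h4 : evP (A : ℂ) B (sbF (cjP (fl 0 alP)) (fl 0 alP)) = 0 := isZ_ok _ _ (by decide +kernel)
    rw [evP_sbF] at h4
    linear_combination (1 / 400 : ℂ) * h4
  have h5 : (((PI c A B).H0 (b0I A B) : ℝ) : ℂ) = fc ((PI c A B).dal (b0I A B)) 0 := Complex.conj_eq_iff_re.1 h2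
  rw [h5, h1, fl_ee]
  have : ee (((0 : ℤ) : ℝ) * t) = 1 := by
    unfold ee
    simp
  rw [this]
  ring

theorem h0_eq (h : OKc c A B) : (((PI c A B).h0 : ℝ) : ℂ) = 1 / 200 * evP (uu (A : ℂ) t) (vv B t) g0P := by
  have h1 : (PI c A B).h0 = c.h0 := rfl
  rw [h1, h.h0]
  unfold g0P
  simp only [evP_cons, evP_nil, evC_i, evM, pow_zero, pow_one, mul_one, one_mul]
  have hu : uu (A : ℂ) t * (starRingEnd ℂ) (uu (A : ℂ) t) = (A : ℂ) ^ 2 := by
    rw [← nsq]
    have : ‖uu (A : ℂ) t‖ = |A| := by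
      unfold uu
      rw [norm_mul, norm_ee, mul_one, Complex.norm_real, Real.norm_eq_abs]
    rw [this, ← Complex.ofReal_pow, sq_abs]
    push_cast
    rfl
  have hv : vv B t * (starRingEnd ℂ) (vv B t) = (‖B‖ : ℂ) ^ 2 := by
    rw [← nsq]
    have : ‖vv B t‖ = ‖B‖ := by
      unfold vv
      rw [norm_mul, norm_ee, mul_one]
    rw [this]
  push_cast
  linear_combination (-(33 / 200) : ℂ) * hu + (9 / 40 : ℂ) * hv

theorem E0_eq : (((evP (A : ℂ) B (eP 0) / 25600).re : ℝ) : ℂ) = 1 / 25600 * evP (uu (A : ℂ) t) (vv B t) (eP 0) := by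
  have h2 : (starRingEnd ℂ) (evP (A : ℂ) B (eP 0) / 25600) = evP (A : ℂ) B (eP 0) / 25600 := by
    have h3 : (starRingEnd ℂ) (25600 : ℂ) = 25600 := Complex.conj_ofReal 25600
    rw [map_div₀, h3, ← evP_cj]
    have h4 : evP (A : ℂ) B (sbF (cjP (eP 0)) (eP 0)) = 0 := isZ_ok _ _ (by decide +kernel)
    rw [evP_sbF] at h4
    linear_combination (1 / 25600 : ℂ) * h4
  rw [Complex.conj_eq_iff_re.1 h2]
  have h5 : fl 0 (eP 0) = eP 0 := by decide +kernel
  have h6 := fl_ee (A : ℂ) B 0 t (eP 0)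
  rw [h5] at h6
  have : ee (((0 : ℤ) : ℝ) * t) = 1 := by
    unfold ee
    simp
  rw [this, mul_one] at h6
  rw [h6]
  ring

theorem eA_ee (k : ℕ) (hk : fl (2 * (k : ℤ) + 4) (eP (k + 2)) = eP (k + 2)) :
    evP (A : ℂ) B (eP (k + 2)) * ee (lk (k + 1) * t) = evP (uu (A : ℂ) t) (vv B t) (eP (k + 2)) := by
  have el : lk (k + 1) = ((2 * (k : ℤ) + 4 : ℤ) : ℝ) := by
    unfold lk
    push_cast
    ring
  have h6 := fl_ee (A : ℂ) B (2 * (k : ℤ) + 4) t (eP (k + 2))
  rw [hk] at h6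
  rw [h6, el]

/-- the error of a moment -/
noncomputable def dk (k : ℕ) : ℂ := (PI c A B).eA (b0I A B) (z0I A B) k - evP A B (eP (k + 1)) / 25600

theorem El_eq (k : ℕ) (hk : fl (2 * (k : ℤ) + 4) (eP (k + 2)) = eP (k + 2)) :
    El (PI c A B) (b0I A B) (z0I A B) (k + 1) t = dk c A B (k + 1) * ee (lk (k + 1) * t)
      + 1 / 25600 * evP (uu (A : ℂ) t) (vv B t) (eP (k + 2))
      - 3 / 100 * ((lk (k + 1) : ℂ) ^ 2 - 1)
        * (evP (uu (A : ℂ) t) (vv B t) (fl (2 * (k : ℤ) + 4) alP) / ((lk (k + 1) : ℂ) + 1)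
      - evP (uu (A : ℂ) t) (vv B t) (cjP (fl (-(2 * (k : ℤ) + 4)) alP)) / ((lk (k + 1) : ℂ) - 1)) := by
  have hH := Hk_ee c A B t k
  have hE := eA_ee A B t k hk
  have hn : ((PI c A B).nu : ℂ) = 1 / 12 := by
    show (((1 / 12 : ℝ)) : ℂ) = _
    push_cast
    rfl
  unfold El dk
  rw [hn, ← hE]
  linear_combination (-24 * ((lk (k + 1) : ℂ) ^ 2 - 1)) * hH

end

/-! ### the rows -/

/-- `∑ α_{2j}/(2j+1)`, the factor 2882880 -/
def QL : Po := addF (smP (-262080, 0) (fl (-12) alP)) (addF (smP (-320320, 0) (fl (-10) alP))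
  (addF (smP (-411840, 0) (fl (-8) alP)) (addF (smP (-576576, 0) (fl (-6) alP))
  (addF (smP (-960960, 0) (fl (-4) alP)) (addF (smP (-2882880, 0) (fl (-2) alP))
  (addF (smP (2882880, 0) (fl 0 alP)) (addF (smP (960960, 0) (fl 2 alP))
  (addF (smP (576576, 0) (fl 4 alP)) (addF (smP (411840, 0) (fl 6 alP))
  (addF (smP (320320, 0) (fl 8 alP)) (addF (smP (262080, 0) (fl 10 alP))
  (smP (221760, 0) (fl 12 alP)))))))))))))

/-- the row of `β₂` -/
def XL : Po := addF [((0, 0, 0, 0), (1153152000, 0)), ((1, 0, 0, 1), (-2306304000, 0)), ((0, 1, 1, 0), (2306304000, 0))]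
  (addF (smP (3843840, 0) sgP) (addF QL (addF (smP (45045, 0) (eP 0))
  (addF (smP (-17297280, 0) (fl 0 alP)) (addF (smP (34594560, 0) g0P)
  (addF (smP (-3003, 0) (eP 2)) (addF (smP (-1287, 0) (eP 3)) (addF (smP (-715, 0) (eP 4))
  (addF (smP (-455, 0) (eP 5))
  (addF (smP (6918912, 0) (fl 4 alP)) (addF (smP (-11531520, 0) (cjP (fl (-4) alP)))
  (addF (smP (4942080, 0) (fl 6 alP)) (addF (smP (-6918912, 0) (cjP (fl (-6) alP)))
  (addF (smP (3843840, 0) (fl 8 alP)) (addF (smP (-4942080, 0) (cjP (fl (-8) alP)))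
  (addF (smP (3144960, 0) (fl 10 alP)) (addF (smP (-3843840, 0) (cjP (fl (-10) alP)))
  (smP (50306256, 0) b2P))))))))))))))))))

/-- the row of `β₃` -/
def YL : Po := addF [((0, 0, 0, 0), (1153152000, 0)), ((1, 0, 0, 1), (2306304000, 0)), ((0, 1, 1, 0), (2306304000, 0))]
  (addF (smP (-7687680, 0) sgP) (addF QL
  (addF (smP (12012, 0) (eP 2)) (addF (smP (7722, 0) (eP 3)) (addF (smP (5720, 0) (eP 4))
  (addF (smP (4550, 0) (eP 5))
  (addF (smP (-27675648, 0) (fl 4 alP)) (addF (smP (46126080, 0) (cjP (fl (-4) alP)))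
  (addF (smP (-29652480, 0) (fl 6 alP)) (addF (smP (41513472, 0) (cjP (fl (-6) alP)))
  (addF (smP (-30750720, 0) (fl 8 alP)) (addF (smP (39536640, 0) (cjP (fl (-8) alP)))
  (addF (smP (-31449600, 0) (fl 10 alP)) (addF (smP (38438400, 0) (cjP (fl (-10) alP)))
  (smP (100612512, 0) b3P)))))))))))))))

theorem XL_ok : isZ (sbF XL x0P) = true := by decide +kernel

theorem YL_ok : isZ (sbF YL (smP (2, 0) y0P)) = true := by decide +kernel

theorem lkv : lk (0 + 1) = 4 ∧ lk (1 + 1) = 6 ∧ lk (2 + 1) = 8 ∧ lk (3 + 1) = 10 := by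
  unfold lk
  norm_num

section

variable (c : ZC) (A : ℝ) (B : ℂ) (t : ℝ)

theorem qb_eq : 1153152000 * qb (PI c A B) (b0I A B) t = 1153152000
    - 768768000 * (uu (A : ℂ) t * (starRingEnd ℂ) (vv B t)) + 2306304000 * ((starRingEnd ℂ) (uu (A : ℂ) t) * vv B t)
    + evP (uu (A : ℂ) t) (vv B t) QL := by
  have hI : (Finset.Icc (-6 : ℤ) 6) = {-6, -5, -4, -3, -2, -1, 0, 1, 2, 3, 4, 5, 6} := by decide
  have hs : ∀ j : ℤ, fc ((PI c A B).al (b0I A B)) (2 * j) / (2 * (j : ℂ) + 1) * ee (((2 * j : ℤ) : ℝ) * t)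
      = 1 / 400 * evP (uu (A : ℂ) t) (vv B t) (fl (2 * j) alP) / (2 * (j : ℂ) + 1) := by
    intro j
    have h := al_fce c A B t (2 * j)
    rw [← h]
    ring
  have hE := eta_eq c A B t
  have hC := eta_cj c A B t
  have hQ : ∑ j ∈ Finset.Icc (-6 : ℤ) 6, fc ((PI c A B).al (b0I A B)) (2 * j) / (2 * (j : ℂ) + 1)
      * ee (((2 * j : ℤ) : ℝ) * t) = 1 / 1153152000 * evP (uu (A : ℂ) t) (vv B t) QL := by
    rw [Finset.sum_congr rfl fun j _ => hs j, hI]
    rw [Finset.sum_insert (by decide), Finset.sum_insert (by decide), Finset.sum_insert (by decide),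
      Finset.sum_insert (by decide), Finset.sum_insert (by decide), Finset.sum_insert (by decide),
      Finset.sum_insert (by decide), Finset.sum_insert (by decide), Finset.sum_insert (by decide),
      Finset.sum_insert (by decide), Finset.sum_insert (by decide), Finset.sum_insert (by decide),
      Finset.sum_singleton]
    unfold QL
    simp only [evP_addF, evP_sm, evC_i]
    norm_num
    ring
  unfold qb
  rw [hQ]
  linear_combination (384384000 : ℂ) * hE - (1153152000 : ℂ) * hC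

/-- the exact row of `β₂` -/
theorem X0_ex (h : OKc c A B) : X0 (PI c A B) (b0I A B) (z0I A B) t = evP (uu (A : ℂ) t) (vv B t) x0P / dX
    + (((PI c A B).e00 (b0I A B) (z0I A B) - (evP (A : ℂ) B (eP 0) / 25600).re : ℝ) : ℂ)
    - ∑ k ∈ Finset.range 4, dk c A B (k + 1) * ee (lk (k + 1) * t) / ((lk (k + 1) : ℂ) ^ 2 - 1) := by
  obtain ⟨l4, l6, l8, l10⟩ := lkv
  have hX : evP (uu (A : ℂ) t) (vv B t) XL = evP (uu (A : ℂ) t) (vv B t) x0P := by
    have := isZ_ok (uu (A : ℂ) t) (vv B t) XL_ok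
    rw [evP_sbF] at this
    exact sub_eq_zero.1 this
  have hcs : ((PI c A B).cs : ℂ) = 11 / 40 := by
    show ((c.cs : ℝ) : ℂ) = _
    rw [h.cs]
    push_cast
    rfl
  have hpr : ((PI c A B).pr2 : ℂ) = 6 := by
    show ((c.pr2 : ℝ) : ℂ) = _
    rw [h.pr2]
    push_cast
    rfl
  have hE := eta_eq c A B t
  have hS := sig_ee c A B t
  have hq := qb_eq c A B t
  have h00 := E0_eq A B t
  have hH := H0_eq c A B t
  have hh := h0_eq c A B t h
  have hb := b2_eq A B t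
  have e0 := El_eq c A B t 0 (by decide +kernel)
  have e1 := El_eq c A B t 1 (by decide +kernel)
  have e2 := El_eq c A B t 2 (by decide +kernel)
  have e3 := El_eq c A B t 3 (by decide +kernel)
  rw [← hX]
  unfold X0
  rw [Finset.sum_range_succ, Finset.sum_range_succ, Finset.sum_range_succ, Finset.sum_range_succ, Finset.sum_range_zero,
    Finset.sum_range_succ, Finset.sum_range_succ, Finset.sum_range_succ, Finset.sum_range_succ, Finset.sum_range_zero,
    e0, e1, e2, e3, l4, l6, l8, l10, hcs, hb, add_mul, hS, hE]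
  have hq' : qb (PI c A B) (b0I A B) t = (1153152000
    - 768768000 * (uu (A : ℂ) t * (starRingEnd ℂ) (vv B t)) + 2306304000 * ((starRingEnd ℂ) (uu (A : ℂ) t) * vv B t)
    + evP (uu (A : ℂ) t) (vv B t) QL) / 1153152000 := by
    rw [← hq]
    ring
  rw [hq']
  unfold XL
  simp only [evP_addF, evP_sm, evC_i, evP_cons, evP_nil, evM, pow_zero, pow_one, mul_one, one_mul]
  simp only [Complex.ofReal_sub, Complex.ofReal_mul, h00, hH, hh, hpr]
  unfold dX
  push_cast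
  norm_num
  ring

/-- the exact row of `β₃` -/
theorem Y0_ex (h : OKc c A B) : Y0 (PI c A B) (b0I A B) (z0I A B) t = evP (uu (A : ℂ) t) (vv B t) y0P / dY
    + ∑ k ∈ Finset.range 4, (lk (k + 1) : ℂ) / (2 * ((lk (k + 1) : ℂ) ^ 2 - 1))
      * (dk c A B (k + 1) * ee (lk (k + 1) * t)) := by
  obtain ⟨l4, l6, l8, l10⟩ := lkv
  have hX : evP (uu (A : ℂ) t) (vv B t) YL = 2 * evP (uu (A : ℂ) t) (vv B t) y0P := by
    have := isZ_ok (uu (A : ℂ) t) (vv B t) YL_ok
    rw [evP_sbF, evP_sm, evC_i] at this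
    push_cast at this
    exact sub_eq_zero.1 this
  have hcs : ((PI c A B).cs : ℂ) = 11 / 40 := by
    show ((c.cs : ℝ) : ℂ) = _
    rw [h.cs]
    push_cast
    rfl
  have hE := eta_eq c A B t
  have hS := sig_ee c A B t
  have hq := qb_eq c A B t
  have hb := b3_eq A B t
  have e0 := El_eq c A B t 0 (by decide +kernel)
  have e1 := El_eq c A B t 1 (by decide +kernel)
  have e2 := El_eq c A B t 2 (by decide +kernel)
  have e3 := El_eq c A B t 3 (by decide +kernel)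
  have hX' : evP (uu (A : ℂ) t) (vv B t) y0P = evP (uu (A : ℂ) t) (vv B t) YL / 2 := by
    rw [hX]
    ring
  rw [hX']
  unfold Y0
  rw [Finset.sum_range_succ, Finset.sum_range_succ, Finset.sum_range_succ, Finset.sum_range_succ, Finset.sum_range_zero,
    Finset.sum_range_succ, Finset.sum_range_succ, Finset.sum_range_succ, Finset.sum_range_succ, Finset.sum_range_zero,
    e0, e1, e2, e3, l4, l6, l8, l10, hcs, hb, add_mul, hS, hE]
  have hq' : qb (PI c A B) (b0I A B) t = (1153152000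
    - 768768000 * (uu (A : ℂ) t * (starRingEnd ℂ) (vv B t)) + 2306304000 * ((starRingEnd ℂ) (uu (A : ℂ) t) * vv B t)
    + evP (uu (A : ℂ) t) (vv B t) QL) / 1153152000 := by
    rw [← hq]
    ring
  rw [hq']
  unfold YL
  simp only [evP_addF, evP_sm, evC_i, evP_cons, evP_nil, evM, pow_zero, pow_one, mul_one, one_mul]
  unfold dY
  push_cast
  norm_num
  ring

end

/-- **(X)** -/
theorem hStX : StX := by
  intro c A B δ h hE t
  have hl : ∀ k : ℕ, 0 < lk (k + 1) ^ 2 - 1 := by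
    intro k
    have := lk_ge (k + 1)
    nlinarith
  have hd : ∀ k ∈ Finset.range 4, ‖dk c A B (k + 1)‖ ≤ δ (k + 2) := by
    intro k hk
    have hk' := Finset.mem_range.1 hk
    exact hE.el (k + 1) (by omega)
  have hn : ∀ k : ℕ, ‖((lk (k + 1) : ℂ) ^ 2 - 1)‖ = lk (k + 1) ^ 2 - 1 := by
    intro k
    have e : ((lk (k + 1) : ℂ) ^ 2 - 1) = ((lk (k + 1) ^ 2 - 1 : ℝ) : ℂ) := by
      push_cast
      rfl
    rw [e, Complex.norm_real, Real.norm_eq_abs, abs_of_pos (hl k)]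
  constructor
  · rw [X0_ex c A B t h]
    have e : ∀ x y z : ℂ, x + y - z - x = y - z := fun x y z => by ring
    rw [e]
    refine (norm_sub_le _ _).trans (add_le_add ?_ ?_)
    · rw [Complex.norm_real, Real.norm_eq_abs]
      exact hE.e0
    · refine (norm_sum_le _ _).trans (Finset.sum_le_sum fun k hk => ?_)
      rw [norm_div, norm_mul, norm_ee, mul_one, hn, div_mul_eq_mul_div, one_mul]
      exact div_le_div_of_nonneg_right (hd k hk) (hl k).le
  · rw [Y0_ex c A B t h, add_sub_cancel_left]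
    refine (norm_sum_le _ _).trans (Finset.sum_le_sum fun k hk => ?_)
    have hp : 0 ≤ lk (k + 1) := by
      have := lk_ge (k + 1)
      linarith
    rw [norm_mul, norm_mul, norm_ee, mul_one, norm_div, norm_mul, hn, Complex.norm_real, Real.norm_eq_abs,
      abs_of_nonneg hp, Complex.norm_two]
    exact mul_le_mul_of_nonneg_left (hd k hk) (div_nonneg hp (mul_nonneg zero_le_two (hl k).le))

end Pool.Agent.Helper7.GX
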