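import Pool.Agent.Helper33.SH.GDef

/-!
# SHARP, link (6): the explicit rows of the linear part (module GA2)
-/

set_option autoImplicit false

open MeasureTheory Set Filter Topology

namespace Pool.Agent.Helper7.GL

open Helper49.LT hiding sg
open Helper49.RC (om)
open Helper49.Sharp
open Helper56.RC (fc)
open Helper87.RC (BM fc_add fc_sub fc_cmul)
open Helper95.SH (Dat)
open Pool.Agent.Helper20.RC (lk lk_ge lk_sq)
open Pool.Agent.Helper43.SH
open Pool.Agent.Helper33.GL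

/-- bounded measurable -/
private def Bd (f : ℝ → ℂ) : Prop := ∃ C, BM f C

private theorem Bd.add {f g : ℝ → ℂ} (h : Bd f) (k : Bd g) : Bd fun t => f t + g t := by
  obtain ⟨C, hC⟩ := h
  obtain ⟨D, hD⟩ := k
  exact ⟨_, hC.add hD⟩

private theorem Bd.ee (c : ℂ) (n : ℤ) : Bd fun t => c * ee ((n : ℝ) * t) := ⟨_, (BM.eec _).cmul c⟩

private theorem Bd.zero : Bd fun _ => 0 := ⟨0, ⟨measurable_const, fun _ => by simp⟩⟩

private theorem Bd.sum {ι : Type} (s : Finset ι) (f : ι → ℝ → ℂ) (h : ∀ i ∈ s, Bd (f i)) :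
    Bd fun t => ∑ i ∈ s, f i t := by
  classical
  induction s using Finset.induction_on with
  | empty => simpa using Bd.zero
  | insert a s ha ih =>
    have e : (fun t => ∑ i ∈ insert a s, f i t) = fun t => f a t + ∑ i ∈ s, f i t := by
      funext t
      rw [Finset.sum_insert ha]
    rw [e]
    exact (h a (Finset.mem_insert_self _ _)).add (ih fun i hi => h i (Finset.mem_insert_of_mem hi))

private theorem Bd.br {f : ℝ → ℂ} (h : Bd f) : BR fun t => (f t).re := by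
  obtain ⟨C, hC⟩ := h
  exact BR.re hC

/-- the functional -/
private noncomputable def A (x : ℝ → ℝ) (f : ℝ → ℂ) : ℝ := mean fun t => 2 * (f t).re * x t

private theorem A_add {x : ℝ → ℝ} (hx : BR x) {f g : ℝ → ℂ} (hf : Bd f) (hg : Bd g) :
    A x (fun t => f t + g t) = A x f + A x g := by
  unfold A
  rw [← mean_add ((hf.br.cmul 2).mul hx) ((hg.br.cmul 2).mul hx)]
  refine mean_congr fun t => ?_
  rw [Complex.add_re]
  ring

private theorem A_zero (x : ℝ → ℝ) : A x (fun _ => 0) = 0 := by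
  unfold A mean
  simp

private theorem A_sum {x : ℝ → ℝ} (hx : BR x) {ι : Type} (s : Finset ι) (f : ι → ℝ → ℂ)
    (h : ∀ i ∈ s, Bd (f i)) : A x (fun t => ∑ i ∈ s, f i t) = ∑ i ∈ s, A x (f i) := by
  classical
  induction s using Finset.induction_on with
  | empty => simpa using A_zero x
  | insert a s ha ih =>
    have e : (fun t => ∑ i ∈ insert a s, f i t) = fun t => f a t + ∑ i ∈ s, f i t := by
      funext t
      rw [Finset.sum_insert ha]
    rw [e, A_add hx (h a (Finset.mem_insert_self _ _))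
      (Bd.sum s f fun i hi => h i (Finset.mem_insert_of_mem hi)),
      ih fun i hi => h i (Finset.mem_insert_of_mem hi), Finset.sum_insert ha]

private theorem ee_conj (s : ℝ) : ee (-s) = (starRingEnd ℂ) (ee s) := by
  unfold ee
  rw [← Complex.exp_conj, map_mul, Complex.conj_ofReal, Complex.conj_I]
  congr 1
  push_cast
  ring

private theorem A_ee {x : ℝ → ℝ} (hx : BR x) (c : ℂ) (n : ℤ) : A x (fun t => c * ee ((n : ℝ) * t)) =
    2 * ((starRingEnd ℂ) c * fc (fun t => (x t : ℂ)) n).re := by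
  obtain ⟨C, hC⟩ := hx.b
  have hX : BM (fun t => (x t : ℂ)) C :=
    ⟨Complex.measurable_ofReal.comp hx.m, fun t => by rw [Complex.norm_real, Real.norm_eq_abs]; exact hC t⟩
  have hE : BM (fun t : ℝ => ee (-((n : ℝ) * t))) 1 := by
    have h := BM.eec (-(n : ℝ))
    have e : (fun t : ℝ => ee (-((n : ℝ) * t))) = fun t : ℝ => ee (-(n : ℝ) * t) := by
      funext t
      rw [neg_mul]
    rw [e]
    exact h
  have hb := (hX.cmul ((starRingEnd ℂ) c)).mul hE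
  rw [← fc_cmul]
  unfold fc
  rw [mean_re hb, ← mean_cmul]
  unfold A
  refine mean_congr fun t => ?_
  rw [ee_conj]
  simp only [Complex.mul_re, Complex.mul_im, Complex.conj_re, Complex.conj_im, Complex.ofReal_re, Complex.ofReal_im]
  ring

private theorem fc_noh2g {δ : ℝ → ℂ} {D : ℝ} (h : BM δ D) (n : ℤ) :
    fc (noh2 δ) n = fc δ n - fc δ 2 * (if n = 2 then 1 else 0) - fc δ (-2) * (if n = -2 then 1 else 0) := by
  have e : noh2 δ = fun t => (δ t - fc δ 2 * ee (((2 : ℤ) : ℝ) * t)) - fc δ (-2) * ee (((-2 : ℤ) : ℝ) * t) := by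
    funext t
    unfold noh2
    push_cast
    rfl
  have b1 : BM (fun t : ℝ => ee (((2 : ℤ) : ℝ) * t)) 1 := BM.eec _
  have b2 : BM (fun t : ℝ => ee (((-2 : ℤ) : ℝ) * t)) 1 := BM.eec _
  rw [e, fc_sub (h.sub (b1.cmul _)) (b2.cmul _), fc_sub h (b1.cmul _), fc_cmul, fc_cmul,
    Pool.Agent.Helper20.RC.fc_eek, Pool.Agent.Helper20.RC.fc_eek]

private theorem lk1 (k : ℕ) : lk (k + 1) = ((2 * (k : ℤ) + 4 : ℤ) : ℝ) := by
  unfold lk
  push_cast
  ring

section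

variable {P : Par} {bs zs β ρ : ℝ → ℂ}

/-- `e_l - (2/ν) (l² - 1) H_l` -/
private noncomputable def Eh (P : Par) (bs zs : ℝ → ℂ) (k : ℕ) : ℂ :=
  P.eA bs zs k - 2 / (P.nu : ℂ) * ((lk k : ℂ) ^ 2 - 1) * Hk (P.dal bs) k

private theorem X0_eq (t : ℝ) : X0 P bs zs t =
    (((((((2 / 3 * (P.eta + P.sig bs)) * ee (((2 : ℤ) : ℝ) * t) + 1 * ee (((0 : ℤ) : ℝ) * t))
      + (P.eta / 3) * ee (((2 : ℤ) : ℝ) * t)) + (-(starRingEnd ℂ) P.eta) * ee (((-2 : ℤ) : ℝ) * t))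
      + ∑ j ∈ Finset.Icc (-6 : ℤ) 6, (fc (P.al bs) (2 * j) / (2 * (j : ℂ) + 1)) * ee (((2 * j : ℤ) : ℝ) * t))
      + ((P.e00 bs zs - P.pr2 * (P.H0 bs - P.h0) : ℝ) : ℂ) * ee (((0 : ℤ) : ℝ) * t))
      + ∑ k ∈ Finset.range 4, (-(Eh P bs zs (k + 1) / ((lk (k + 1) : ℂ) ^ 2 - 1)))
        * ee (((2 * (k : ℤ) + 4 : ℤ) : ℝ) * t))
      + (9 - (P.cs : ℂ)) * ((bs t).re : ℂ) := by
  have h0 : ee (((0 : ℤ) : ℝ) * t) = 1 := by
    unfold ee
    simp
  have h7 : ∑ k ∈ Finset.range 4, (-(Eh P bs zs (k + 1) / ((lk (k + 1) : ℂ) ^ 2 - 1)))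
        * ee (((2 * (k : ℤ) + 4 : ℤ) : ℝ) * t)
      = -∑ k ∈ Finset.range 4, El P bs zs (k + 1) t / ((lk (k + 1) : ℂ) ^ 2 - 1) := by
    rw [← Finset.sum_neg_distrib]
    refine Finset.sum_congr rfl fun k _ => ?_
    rw [← lk1]
    unfold El Eh
    ring
  rw [h0, h7]
  unfold X0 qb
  push_cast
  ring

private theorem Y0_eq (t : ℝ) : -Complex.I * Y0 P bs zs t =
    ((((((-Complex.I * (-(2 / 3 * (P.eta + P.sig bs)))) * ee (((2 : ℤ) : ℝ) * t)
      + (-Complex.I / 2) * ee (((0 : ℤ) : ℝ) * t))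
      + (-Complex.I * (P.eta / 3) / 2) * ee (((2 : ℤ) : ℝ) * t))
      + (-Complex.I * (-(starRingEnd ℂ) P.eta) / 2) * ee (((-2 : ℤ) : ℝ) * t))
      + ∑ j ∈ Finset.Icc (-6 : ℤ) 6, (-Complex.I * (fc (P.al bs) (2 * j) / (2 * (j : ℂ) + 1)) / 2)
        * ee (((2 * j : ℤ) : ℝ) * t))
      + ∑ k ∈ Finset.range 4, (-Complex.I * ((lk (k + 1) : ℂ) / (2 * ((lk (k + 1) : ℂ) ^ 2 - 1)) * Eh P bs zs (k + 1)))
        * ee (((2 * (k : ℤ) + 4 : ℤ) : ℝ) * t))
      + (9 - (P.cs : ℂ)) * ((bs t).im : ℂ) := by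
  have h0 : ee (((0 : ℤ) : ℝ) * t) = 1 := by
    unfold ee
    simp
  have h7 : ∑ k ∈ Finset.range 4, (-Complex.I * ((lk (k + 1) : ℂ) / (2 * ((lk (k + 1) : ℂ) ^ 2 - 1))
        * Eh P bs zs (k + 1))) * ee (((2 * (k : ℤ) + 4 : ℤ) : ℝ) * t)
      = -Complex.I * ∑ k ∈ Finset.range 4,
        (lk (k + 1) : ℂ) / (2 * ((lk (k + 1) : ℂ) ^ 2 - 1)) * El P bs zs (k + 1) t := by
    rw [Finset.mul_sum]
    refine Finset.sum_congr rfl fun k _ => ?_
    rw [← lk1]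
    unfold El Eh
    ring
  have h5 : ∑ j ∈ Finset.Icc (-6 : ℤ) 6, (-Complex.I * (fc (P.al bs) (2 * j) / (2 * (j : ℂ) + 1)) / 2)
        * ee (((2 * j : ℤ) : ℝ) * t)
      = -Complex.I / 2 * ∑ j ∈ Finset.Icc (-6 : ℤ) 6, fc (P.al bs) (2 * j) / (2 * (j : ℂ) + 1)
        * ee (((2 * j : ℤ) : ℝ) * t) := by
    rw [Finset.mul_sum]
    refine Finset.sum_congr rfl fun k _ => ?_
    ring
  rw [h0, h7, h5]
  unfold Y0 qb
  have hI : Complex.I * Complex.I = -1 := Complex.I_mul_I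
  push_cast
  linear_combination (-(9 - (P.cs : ℂ)) * ((bs t).im : ℂ)) * hI

private theorem dl_fc {C : ℝ} (h : BM β C) (n : ℤ) : fc (dl β) n =
    fc (fun t => ((β t).re : ℂ)) n + Complex.I / 2 * fc (fun t => ((β t).im : ℂ)) n := by
  have e : dl β = fun t => ((β t).re : ℂ) + Complex.I / 2 * ((β t).im : ℂ) := by
    funext t
    unfold dl
    push_cast
    ring
  rw [e, fc_add (reC_BM h) ((imC_BM h).cmul _), fc_cmul]

private theorem conj_p (u : ℝ → ℝ) (n : ℤ) :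
    fc (fun t => (u t : ℂ)) (-n) = (starRingEnd ℂ) (fc (fun t => (u t : ℂ)) n) := by
  have h := Helper87.RC.fc_conj (fun t => (u t : ℂ)) (-n)
  simp only [Complex.conj_ofReal, neg_neg] at h
  exact h

private theorem hK0 {C : ℝ} (h : BM β C) : hK β 0 = 0 := by
  obtain ⟨E, hE⟩ := dl_BM h
  unfold hK Hk
  rw [fc_noh2g hE, fc_noh2g hE]
  norm_num

private theorem hK1 {C : ℝ} (h : BM β C) (k : ℕ) : hK β (k + 1) =
    ((1 / (lk (k + 1) ^ 2 - 1) : ℝ) : ℂ) * (-fc (fun t => ((β t).re : ℂ)) (2 * (k : ℤ) + 4)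
      + Complex.I / 2 * (lk (k + 1) : ℂ) * fc (fun t => ((β t).im : ℂ)) (2 * (k : ℤ) + 4)) := by
  obtain ⟨E, hE⟩ := dl_BM h
  unfold hK Hk
  have e1 : (2 * ((k + 1 : ℕ) : ℤ) + 2) = 2 * (k : ℤ) + 4 := by push_cast; ring
  have c1 : fc (fun t => ((β t).re : ℂ)) (-(2 * (k : ℤ) + 4)) =
      (starRingEnd ℂ) (fc (fun t => ((β t).re : ℂ)) (2 * (k : ℤ) + 4)) := conj_p (fun t => (β t).re) _
  have c2 : fc (fun t => ((β t).im : ℂ)) (-(2 * (k : ℤ) + 4)) =
      (starRingEnd ℂ) (fc (fun t => ((β t).im : ℂ)) (2 * (k : ℤ) + 4)) := conj_p (fun t => (β t).im) _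
  rw [fc_noh2g hE, fc_noh2g hE, e1, if_neg (by omega), if_neg (by omega), if_neg (by omega), if_neg (by omega),
    dl_fc h (2 * (k : ℤ) + 4), dl_fc h (-(2 * (k : ℤ) + 4)), c1, c2]
  have hl := lk_ge (k + 1)
  have n1 : ((lk (k + 1) : ℂ) + 1) ≠ 0 := by
    have : ((lk (k + 1) + 1 : ℝ) : ℂ) ≠ 0 := Complex.ofReal_ne_zero.mpr (by linarith)
    simpa using this
  have n2 : ((lk (k + 1) : ℂ) - 1) ≠ 0 := by
    have : ((lk (k + 1) - 1 : ℝ) : ℂ) ≠ 0 := Complex.ofReal_ne_zero.mpr (by linarith)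
    simpa using this
  have n3 : ((lk (k + 1) : ℂ) ^ 2 - 1) ≠ 0 := by
    have : (lk (k + 1) : ℂ) ^ 2 - 1 = ((lk (k + 1) : ℂ) + 1) * ((lk (k + 1) : ℂ) - 1) := by ring
    rw [this]
    exact mul_ne_zero n1 n2
  simp only [mul_zero, sub_zero, map_add, map_mul, map_div₀, Complex.conj_conj, Complex.conj_I, map_ofNat]
  push_cast
  field_simp
  ring

/-- **(GA2)** -/
theorem hGA2 : StGA2 := by
  intro P bs zs β ρ hr hd hRB hfin
  obtain ⟨C, hC⟩ := hRB.bb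
  obtain ⟨Cb, hCb⟩ := hd.hb.b
  have hbs : BM bs Cb := ⟨hd.hb.m, hCb⟩
  set x : ℝ → ℝ := fun t => (β t).re with hx
  set y : ℝ → ℝ := fun t => (β t).im with hy
  have bx : BR x := BR.re hC
  have by' : BR y := BR.im hC
  have hb1 : Bd fun t => (9 - (P.cs : ℂ)) * ((bs t).re : ℂ) := ⟨_, (reC_BM hbs).cmul _⟩
  have hb2 : Bd fun t => (9 - (P.cs : ℂ)) * ((bs t).im : ℂ) := ⟨_, (imC_BM hbs).cmul _⟩
  -- the right side
  have hsplit : mean (fun t => 2 * (X0 P bs zs t).re * (β t).re + 2 * (Y0 P bs zs t).im * (β t).im) =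
      A x (X0 P bs zs) + A y (fun t => -Complex.I * Y0 P bs zs t) := by
    have hBX : Bd (X0 P bs zs) := by
      have e : X0 P bs zs = _ := funext fun t => X0_eq (P := P) (bs := bs) (zs := zs) t
      rw [e]
      exact ((((((((Bd.ee _ _).add (Bd.ee _ _)).add (Bd.ee _ _)).add (Bd.ee _ _)).add
        (Bd.sum _ _ fun j _ => Bd.ee _ _)).add (Bd.ee _ _)).add (Bd.sum _ _ fun k _ => Bd.ee _ _)).add hb1)
    have hBY : Bd (fun t => -Complex.I * Y0 P bs zs t) := by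
      have e : (fun t => -Complex.I * Y0 P bs zs t) = _ :=
        funext fun t => Y0_eq (P := P) (bs := bs) (zs := zs) t
      rw [e]
      exact (((((((Bd.ee _ _).add (Bd.ee _ _)).add (Bd.ee _ _)).add (Bd.ee _ _)).add
        (Bd.sum _ _ fun j _ => Bd.ee _ _)).add (Bd.sum _ _ fun k _ => Bd.ee _ _)).add hb2)
    unfold A
    rw [← mean_add ((hBX.br.cmul 2).mul bx) ((hBY.br.cmul 2).mul by')]
    refine mean_congr fun t => ?_
    have h1 : (-Complex.I * Y0 P bs zs t).re = (Y0 P bs zs t).im := by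
      rw [Complex.mul_re, Complex.neg_re, Complex.neg_im, Complex.I_re, Complex.I_im]
      ring
    rw [h1]
  have hAX : A x (X0 P bs zs) =
      ((((((2 * ((starRingEnd ℂ) (2 / 3 * (P.eta + P.sig bs)) * fc (fun t => (x t : ℂ)) 2).re
        + 2 * ((starRingEnd ℂ) 1 * fc (fun t => (x t : ℂ)) 0).re)
        + 2 * ((starRingEnd ℂ) (P.eta / 3) * fc (fun t => (x t : ℂ)) 2).re)
        + 2 * ((starRingEnd ℂ) (-(starRingEnd ℂ) P.eta) * fc (fun t => (x t : ℂ)) (-2)).re)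
        + ∑ j ∈ Finset.Icc (-6 : ℤ) 6, 2 * ((starRingEnd ℂ) (fc (P.al bs) (2 * j) / (2 * (j : ℂ) + 1))
          * fc (fun t => (x t : ℂ)) (2 * j)).re)
        + 2 * ((starRingEnd ℂ) ((P.e00 bs zs - P.pr2 * (P.H0 bs - P.h0) : ℝ) : ℂ) * fc (fun t => (x t : ℂ)) 0).re)
        + ∑ k ∈ Finset.range 4, 2 * ((starRingEnd ℂ) (-(Eh P bs zs (k + 1) / ((lk (k + 1) : ℂ) ^ 2 - 1)))
          * fc (fun t => (x t : ℂ)) (2 * (k : ℤ) + 4)).re)
        + A x (fun t => (9 - (P.cs : ℂ)) * ((bs t).re : ℂ)) := by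
    have e : X0 P bs zs = _ := funext fun t => X0_eq (P := P) (bs := bs) (zs := zs) t
    rw [e, A_add bx (((((((Bd.ee _ _).add (Bd.ee _ _)).add (Bd.ee _ _)).add (Bd.ee _ _)).add
        (Bd.sum _ _ fun j _ => Bd.ee _ _)).add (Bd.ee _ _)).add (Bd.sum _ _ fun k _ => Bd.ee _ _)) hb1,
      A_add bx ((((((Bd.ee _ _).add (Bd.ee _ _)).add (Bd.ee _ _)).add (Bd.ee _ _)).add
        (Bd.sum _ _ fun j _ => Bd.ee _ _)).add (Bd.ee _ _)) (Bd.sum _ _ fun k _ => Bd.ee _ _),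
      A_add bx (((((Bd.ee _ _).add (Bd.ee _ _)).add (Bd.ee _ _)).add (Bd.ee _ _)).add
        (Bd.sum _ _ fun j _ => Bd.ee _ _)) (Bd.ee _ _),
      A_add bx ((((Bd.ee _ _).add (Bd.ee _ _)).add (Bd.ee _ _)).add (Bd.ee _ _))
        (Bd.sum _ _ fun j _ => Bd.ee _ _),
      A_add bx (((Bd.ee _ _).add (Bd.ee _ _)).add (Bd.ee _ _)) (Bd.ee _ _),
      A_add bx ((Bd.ee _ _).add (Bd.ee _ _)) (Bd.ee _ _), A_add bx (Bd.ee _ _) (Bd.ee _ _),
      A_ee bx, A_ee bx, A_ee bx, A_ee bx, A_ee bx, A_sum bx _ _ fun j _ => Bd.ee _ _,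
      A_sum bx _ _ fun j _ => Bd.ee _ _]
    simp only [A_ee bx]
  have hAY : A y (fun t => -Complex.I * Y0 P bs zs t) =
      (((((2 * ((starRingEnd ℂ) (-Complex.I * (-(2 / 3 * (P.eta + P.sig bs)))) * fc (fun t => (y t : ℂ)) 2).re
        + 2 * ((starRingEnd ℂ) (-Complex.I / 2) * fc (fun t => (y t : ℂ)) 0).re)
        + 2 * ((starRingEnd ℂ) (-Complex.I * (P.eta / 3) / 2) * fc (fun t => (y t : ℂ)) 2).re)
        + 2 * ((starRingEnd ℂ) (-Complex.I * (-(starRingEnd ℂ) P.eta) / 2) * fc (fun t => (y t : ℂ)) (-2)).re)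
        + ∑ j ∈ Finset.Icc (-6 : ℤ) 6, 2 * ((starRingEnd ℂ) (-Complex.I * (fc (P.al bs) (2 * j) / (2 * (j : ℂ) + 1)) / 2)
          * fc (fun t => (y t : ℂ)) (2 * j)).re)
        + ∑ k ∈ Finset.range 4, 2 * ((starRingEnd ℂ) (-Complex.I * ((lk (k + 1) : ℂ)
            / (2 * ((lk (k + 1) : ℂ) ^ 2 - 1)) * Eh P bs zs (k + 1)))
          * fc (fun t => (y t : ℂ)) (2 * (k : ℤ) + 4)).re)
        + A y (fun t => (9 - (P.cs : ℂ)) * ((bs t).im : ℂ)) := by
    have e : (fun t => -Complex.I * Y0 P bs zs t) = _ :=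
        funext fun t => Y0_eq (P := P) (bs := bs) (zs := zs) t
    rw [e, A_add by' ((((((Bd.ee _ _).add (Bd.ee _ _)).add (Bd.ee _ _)).add (Bd.ee _ _)).add
        (Bd.sum _ _ fun j _ => Bd.ee _ _)).add (Bd.sum _ _ fun k _ => Bd.ee _ _)) hb2,
      A_add by' (((((Bd.ee _ _).add (Bd.ee _ _)).add (Bd.ee _ _)).add (Bd.ee _ _)).add
        (Bd.sum _ _ fun j _ => Bd.ee _ _)) (Bd.sum _ _ fun k _ => Bd.ee _ _),
      A_add by' ((((Bd.ee _ _).add (Bd.ee _ _)).add (Bd.ee _ _)).add (Bd.ee _ _))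
        (Bd.sum _ _ fun j _ => Bd.ee _ _),
      A_add by' (((Bd.ee _ _).add (Bd.ee _ _)).add (Bd.ee _ _)) (Bd.ee _ _),
      A_add by' ((Bd.ee _ _).add (Bd.ee _ _)) (Bd.ee _ _), A_add by' (Bd.ee _ _) (Bd.ee _ _),
      A_ee by', A_ee by', A_ee by', A_ee by', A_sum by' _ _ fun j _ => Bd.ee _ _,
      A_sum by' _ _ fun j _ => Bd.ee _ _]
    simp only [A_ee by']
  -- the row of `bs`
  have h6 : mean (fun t => 2 * (9 - P.cs) * ((starRingEnd ℂ) (bs t) * β t).re) =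
      A x (fun t => (9 - (P.cs : ℂ)) * ((bs t).re : ℂ)) + A y (fun t => (9 - (P.cs : ℂ)) * ((bs t).im : ℂ)) := by
    unfold A
    rw [← mean_add ((hb1.br.cmul 2).mul bx) ((hb2.br.cmul 2).mul by')]
    refine mean_congr fun t => ?_
    have e1 : ((9 - (P.cs : ℂ)) * ((bs t).re : ℂ)).re = (9 - P.cs) * (bs t).re := by
      have : (9 - (P.cs : ℂ)) * ((bs t).re : ℂ) = (((9 - P.cs) * (bs t).re : ℝ) : ℂ) := by push_cast; ring
      rw [this, Complex.ofReal_re]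
    have e2 : ((9 - (P.cs : ℂ)) * ((bs t).im : ℂ)).re = (9 - P.cs) * (bs t).im := by
      have : (9 - (P.cs : ℂ)) * ((bs t).im : ℂ) = (((9 - P.cs) * (bs t).im : ℝ) : ℂ) := by push_cast; ring
      rw [this, Complex.ofReal_re]
    rw [e1, e2, Complex.mul_re, Complex.conj_re, Complex.conj_im]
    ring
  -- the series
  have h3 : (∑' j : ℤ, 2 * ((starRingEnd ℂ) (fc (P.al bs) (2 * j)) * fc (dl β) (2 * j)).re / (2 * (j : ℝ) + 1)) =
      (∑ j ∈ Finset.Icc (-6 : ℤ) 6, 2 * ((starRingEnd ℂ) (fc (P.al bs) (2 * j) / (2 * (j : ℂ) + 1))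
          * fc (fun t => (x t : ℂ)) (2 * j)).re)
        + ∑ j ∈ Finset.Icc (-6 : ℤ) 6, 2 * ((starRingEnd ℂ) (-Complex.I * (fc (P.al bs) (2 * j) / (2 * (j : ℂ) + 1)) / 2)
          * fc (fun t => (y t : ℂ)) (2 * j)).re := by
    rw [tsum_eq_sum (s := Finset.Icc (-6 : ℤ) 6), ← Finset.sum_add_distrib]
    · refine Finset.sum_congr rfl fun j _ => ?_
      rw [dl_fc hC]
      have e1 : fc (P.al bs) (2 * j) / (2 * (j : ℂ) + 1)
          = ((1 / (2 * (j : ℝ) + 1) : ℝ) : ℂ) * fc (P.al bs) (2 * j) := by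
        push_cast
        ring
      rw [e1]
      set a := fc (P.al bs) (2 * j)
      set p := fc (fun t => ((β t).re : ℂ)) (2 * j)
      set r := fc (fun t => ((β t).im : ℂ)) (2 * j)
      set s : ℝ := 1 / (2 * (j : ℝ) + 1) with hs
      have e2 : 2 * ((starRingEnd ℂ) a * (p + Complex.I / 2 * r)).re / (2 * (j : ℝ) + 1)
          = 2 * ((starRingEnd ℂ) a * (p + Complex.I / 2 * r)).re * s := by rw [hs]; ring
      rw [e2]
      have e3 : -Complex.I * ((s : ℂ) * a) / 2 = (s : ℂ) * (-Complex.I * a / 2) := by ring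
      rw [e3]
      have e4 : Complex.I / 2 * r = ((1 / 2 : ℝ) : ℂ) * (Complex.I * r) := by push_cast; ring
      have e5 : -Complex.I * a / 2 = ((1 / 2 : ℝ) : ℂ) * (-(Complex.I * a)) := by push_cast; ring
      rw [e4, e5]
      simp only [map_mul, map_neg, Complex.conj_ofReal, Complex.mul_re, Complex.mul_im, Complex.add_re,
        Complex.add_im, Complex.neg_re, Complex.neg_im, Complex.conj_re, Complex.conj_im, Complex.ofReal_re,
        Complex.ofReal_im, Complex.I_re, Complex.I_im]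
      ring
    · intro j hj
      have : 6 < |j| := by
        by_contra h
        push Not at h
        exact hj (Finset.mem_Icc.mpr (abs_le.mp h))
      rw [hfin j this]
      simp
  have h5 : (∑ k ∈ Finset.range 5, (2 * (hK β k * (starRingEnd ℂ) (P.eA bs zs k)).re
      - 4 / P.nu * (lk k ^ 2 - 1) * ((starRingEnd ℂ) (Hk (P.dal bs) k) * hK β k).re)) =
      (∑ k ∈ Finset.range 4, 2 * ((starRingEnd ℂ) (-(Eh P bs zs (k + 1) / ((lk (k + 1) : ℂ) ^ 2 - 1)))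
          * fc (fun t => (x t : ℂ)) (2 * (k : ℤ) + 4)).re)
        + ∑ k ∈ Finset.range 4, 2 * ((starRingEnd ℂ) (-Complex.I * ((lk (k + 1) : ℂ)
            / (2 * ((lk (k + 1) : ℂ) ^ 2 - 1)) * Eh P bs zs (k + 1)))
          * fc (fun t => (y t : ℂ)) (2 * (k : ℤ) + 4)).re := by
    rw [Finset.sum_range_succ', hK0 hC, ← Finset.sum_add_distrib]
    simp only [zero_mul, mul_zero, Complex.zero_re, sub_zero, add_zero]
    refine Finset.sum_congr rfl fun k _ => ?_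
    rw [hK1 hC]
    set p := fc (fun t => ((β t).re : ℂ)) (2 * (k : ℤ) + 4)
    set r := fc (fun t => ((β t).im : ℂ)) (2 * (k : ℤ) + 4)
    set l : ℝ := lk (k + 1)
    set s : ℝ := 1 / (l ^ 2 - 1) with hs
    set q : ℝ := 2 / P.nu * (l ^ 2 - 1) with hq
    have e0 : Eh P bs zs (k + 1) = P.eA bs zs (k + 1) - (q : ℂ) * Hk (P.dal bs) (k + 1) := by
      unfold Eh
      rw [hq]
      push_cast
      rfl
    have e1 : -(Eh P bs zs (k + 1) / ((l : ℂ) ^ 2 - 1)) = (s : ℂ) * (-Eh P bs zs (k + 1)) := by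
      rw [hs]
      push_cast
      ring
    have e2 : -Complex.I * ((l : ℂ) / (2 * ((l : ℂ) ^ 2 - 1)) * Eh P bs zs (k + 1))
        = ((s * l / 2 : ℝ) : ℂ) * (-(Complex.I * Eh P bs zs (k + 1))) := by
      have e5 : (l : ℂ) / (2 * ((l : ℂ) ^ 2 - 1)) = (l : ℂ) / 2 * (1 / ((l : ℂ) ^ 2 - 1)) := by
        rw [div_mul_div_comm, mul_one]
      rw [hs, e5]
      push_cast
      ring
    have e3 : 4 / P.nu * (l ^ 2 - 1) = 2 * q := by rw [hq]; ring
    have e4 : Complex.I / 2 * (l : ℂ) * r = ((l / 2 : ℝ) : ℂ) * (Complex.I * r) := by push_cast; ring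
    rw [e1, e2, e3, e4, e0]
    simp only [map_mul, map_neg, map_sub, Complex.conj_ofReal, Complex.mul_re, Complex.mul_im, Complex.add_re,
      Complex.add_im, Complex.sub_re, Complex.sub_im, Complex.neg_re, Complex.neg_im, Complex.conj_re,
      Complex.conj_im, Complex.ofReal_re, Complex.ofReal_im, Complex.I_re, Complex.I_im]
    ring
  rw [hsplit, hAX, hAY, h3, h5, h6]
  have hr0 : (fc (fun t => (y t : ℂ)) 0).im = 0 := by
    have h := conj_p y 0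
    rw [neg_zero] at h
    have h2 := congrArg Complex.im h
    rw [Complex.conj_im] at h2
    linarith
  have hhR : hR β = (fc (fun t => (x t : ℂ)) 0).re := by
    unfold hR
    rw [dl_fc hC, Complex.add_re]
    have : (Complex.I / 2 * fc (fun t => ((β t).im : ℂ)) 0).re = 0 := by
      have e : Complex.I / 2 * fc (fun t => ((β t).im : ℂ)) 0
          = ((1 / 2 : ℝ) : ℂ) * (Complex.I * fc (fun t => ((β t).im : ℂ)) 0) := by push_cast; ring
      rw [e, Complex.re_ofReal_mul, Complex.mul_re, Complex.I_re, Complex.I_im]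
      change 1 / 2 * (0 * _ - 1 * (fc (fun t => (y t : ℂ)) 0).im) = 0
      rw [hr0]
      ring
    rw [this, add_zero]
  have hsg : sgR β = fc (fun t => (x t : ℂ)) 2 - Complex.I * fc (fun t => (y t : ℂ)) 2 := rfl
  rw [hhR, hsg, dl_fc hC, dl_fc hC, dl_fc hC]
  change _ = _
  set S3x := ∑ j ∈ Finset.Icc (-6 : ℤ) 6, 2 * ((starRingEnd ℂ) (fc (P.al bs) (2 * j) / (2 * (j : ℂ) + 1))
          * fc (fun t => (x t : ℂ)) (2 * j)).re
  set S3y := ∑ j ∈ Finset.Icc (-6 : ℤ) 6, 2 * ((starRingEnd ℂ) (-Complex.I * (fc (P.al bs) (2 * j) / (2 * (j : ℂ) + 1)) / 2)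
          * fc (fun t => (y t : ℂ)) (2 * j)).re
  set S5x := ∑ k ∈ Finset.range 4, 2 * ((starRingEnd ℂ) (-(Eh P bs zs (k + 1) / ((lk (k + 1) : ℂ) ^ 2 - 1)))
          * fc (fun t => (x t : ℂ)) (2 * (k : ℤ) + 4)).re
  set S5y := ∑ k ∈ Finset.range 4, 2 * ((starRingEnd ℂ) (-Complex.I * ((lk (k + 1) : ℂ)
            / (2 * ((lk (k + 1) : ℂ) ^ 2 - 1)) * Eh P bs zs (k + 1)))
          * fc (fun t => (y t : ℂ)) (2 * (k : ℤ) + 4)).re
  change _ + 2 * (fc (fun t => (x t : ℂ)) 0 + Complex.I / 2 * fc (fun t => (y t : ℂ)) 0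
    + (starRingEnd ℂ) P.eta * (fc (fun t => (x t : ℂ)) 2 + Complex.I / 2 * fc (fun t => (y t : ℂ)) 2) / 3
    - P.eta * (fc (fun t => (x t : ℂ)) (-2) + Complex.I / 2 * fc (fun t => (y t : ℂ)) (-2))).re + _ + _ - _ + _ + _ = _
  set p2 := fc (fun t => (x t : ℂ)) 2
  set r2 := fc (fun t => (y t : ℂ)) 2
  set pm := fc (fun t => (x t : ℂ)) (-2)
  set rm := fc (fun t => (y t : ℂ)) (-2)
  set p0 := fc (fun t => (x t : ℂ)) 0
  set r0 := fc (fun t => (y t : ℂ)) 0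
  have c1 : (P.eta + P.sig bs) * (2 / 3) = ((2 / 3 : ℝ) : ℂ) * (P.eta + P.sig bs) := by push_cast; ring
  have c2 : 2 / 3 * (P.eta + P.sig bs) = ((2 / 3 : ℝ) : ℂ) * (P.eta + P.sig bs) := by push_cast; ring
  have c3 : P.eta / 3 = ((1 / 3 : ℝ) : ℂ) * P.eta := by push_cast; ring
  have c4 : -Complex.I / 2 = ((1 / 2 : ℝ) : ℂ) * (-Complex.I) := by push_cast; ring
  have c5 : -Complex.I * (((1 / 3 : ℝ) : ℂ) * P.eta) / 2 = ((1 / 6 : ℝ) : ℂ) * (-(Complex.I * P.eta)) := by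
    push_cast; ring
  have c6 : -Complex.I * (-(starRingEnd ℂ) P.eta) / 2 = ((1 / 2 : ℝ) : ℂ) * (Complex.I * (starRingEnd ℂ) P.eta) := by
    push_cast; ring
  have c7 : ∀ u v : ℂ, u + Complex.I / 2 * v = u + ((1 / 2 : ℝ) : ℂ) * (Complex.I * v) := by
    intro u v; push_cast; ring
  have c8 : (starRingEnd ℂ) P.eta * (p2 + ((1 / 2 : ℝ) : ℂ) * (Complex.I * r2)) / 3
      = ((1 / 3 : ℝ) : ℂ) * ((starRingEnd ℂ) P.eta * (p2 + ((1 / 2 : ℝ) : ℂ) * (Complex.I * r2))) := by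
    push_cast; ring
  rw [c2, c3, c5, c4, c6, c7, c7, c7, c8]
  simp only [map_one, map_mul, map_neg, map_add, Complex.conj_ofReal, Complex.conj_conj, Complex.mul_re,
    Complex.mul_im, Complex.add_re, Complex.add_im, Complex.sub_re, Complex.sub_im, Complex.neg_re, Complex.neg_im,
    Complex.conj_re, Complex.conj_im, Complex.ofReal_re, Complex.ofReal_im, Complex.I_re, Complex.I_im,
    Complex.one_re, Complex.one_im]
  have hr0' : r0.im = 0 := hr0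
  rw [hr0']
  ring

end

end Pool.Agent.Helper7.GL
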