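import Pool.Agent.Helper33.SH.GLoc
import Pool.Agent.Helper27.SH.Fin

/-!
# SHARP, link (6): the local part of the linear form in the format of the budget (generic part)
-/

set_option autoImplicit false

open MeasureTheory Set Filter Topology

namespace Pool.Agent.Helper7.GK

open Helper49.LT hiding sg s3
open Helper49.Sharp
open Helper56.RC (fc)
open Helper95.SH (Dat)
open Pool.Agent.Helper20.RC (lk)
open Pool.Agent.Helper33.SH (PI ZC b0I z0I)
open Pool.Agent.Helper33.GL (TailL RB)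
open Pool.Agent.Helper43.SH (LinP)
open Helper27.SH (P2 evR)
open Pool.Agent.Helper27.SH (GD GOK ofP ofP_le rsum evN)
open Pool.Agent.Helper33.GM

/-- (R) for `LinP - TailL` -/
def StRl : Prop := ∀ (c : ZC) (A : ℝ) (B : ℂ) (ez ex ey : ℝ) (β ρ : ℝ → ℂ), |A| + 3 / 2 * ‖B‖ ≤ 1 / 4 →
  (PI c A B).Reg → Dat (b0I A B) (z0I A B) → (∀ j : ℤ, 6 < |j| → fc ((PI c A B).al (b0I A B)) (2 * j) = 0) →
  MOD (PI c A B) (b0I A B) (z0I A B) A B ez ex ey → RB β ρ →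
  |LinP (PI c A B) (b0I A B) (z0I A B) β ρ - TailL (PI c A B) (b0I A B) (z0I A B) β ρ
      - (rsm A B (rwZ dz qz) (fc ρ)
      + rsm A B (rwP dx qx) (fc fun t => ((β t).re : ℂ)) + rsm A B (rwR dy qy) (fc fun t => ((β t).im : ℂ)))| ≤
    ez * Pool.Agent.Helper26.SH.N2 (fun t => ‖ρ t‖) + 2 * ex * Pool.Agent.Helper26.SH.N2 (fun t => (β t).re)
      + 2 * ey * Pool.Agent.Helper26.SH.N2 (fun t => (β t).im)

/-- lists of the remainders through the moments -/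
def rmVl (D : ℕ → P2) : P2 := mul1 0 0 (1 / 36) (D 1) ++ (mul1 0 0 (1 / 90) (D 2) ++ (mul1 0 0 (1 / 140) (D 3)
  ++ (mul1 0 0 (1 / 189) (D 4) ++ mul1 0 0 (5 / 1188) (D 5))))
def rmXl (D : ℕ → P2) : P2 := D 0 ++ (mul1 0 0 (1 / 15) (D 2) ++ (mul1 0 0 (1 / 35) (D 3)
  ++ (mul1 0 0 (1 / 63) (D 4) ++ mul1 0 0 (1 / 99) (D 5))))
def rmYl (D : ℕ → P2) : P2 := mul1 0 0 (2 / 15) (D 2) ++ (mul1 0 0 (3 / 35) (D 3)
  ++ (mul1 0 0 (4 / 63) (D 4) ++ mul1 0 0 (5 / 99) (D 5)))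

/-- lists of the three errors -/
def eZl (D : ℕ → P2) : P2 := mul1 0 0 4 (evo ++ rmVl D)
def eXl (D : ℕ → P2) : P2 := mul1 0 0 4 (eve ++ rmVl D) ++ mul1 0 0 2 (rmXl D)
def eYl (D : ℕ → P2) : P2 := mul1 0 0 7 (eve ++ rmVl D) ++ mul1 0 0 2 (rmYl D)

private theorem m1 (A y : ℝ) (c : ℚ) (L : P2) : evR A y (mul1 0 0 c L) = (c : ℝ) * evR A y L := by
  rw [evR_mul1, pow_zero, pow_zero, mul_one, mul_one]

theorem rmV_eq (A y : ℝ) (D : ℕ → P2) : rmV (fun j => evR A y (D j)) = evR A y (rmVl D) := by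
  unfold rmV rmVl
  simp only [evR_append, m1, Finset.sum_range_succ, Finset.sum_range_zero]
  unfold lk
  push_cast
  ring

theorem rmX_eq (A y : ℝ) (D : ℕ → P2) : rmX (fun j => evR A y (D j)) = evR A y (rmXl D) := by
  unfold rmX rmXl
  simp only [evR_append, m1, Finset.sum_range_succ, Finset.sum_range_zero]
  unfold lk
  push_cast
  ring

theorem rmY_eq (A y : ℝ) (D : ℕ → P2) : rmY (fun j => evR A y (D j)) = evR A y (rmYl D) := by
  unfold rmY rmYl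
  simp only [evR_append, m1, Finset.sum_range_succ, Finset.sum_range_zero]
  unfold lk
  push_cast
  ring

theorem eZ_eq (A y : ℝ) (D : ℕ → P2) : eZ A y (fun j => evR A y (D j)) = evR A y (eZl D) := by
  unfold eZ eZl
  rw [m1, evR_append, rmV_eq]
  push_cast
  ring

theorem eX_eq (A y : ℝ) (D : ℕ → P2) : eX A y (fun j => evR A y (D j)) = evR A y (eXl D) := by
  unfold eX eXl
  rw [evR_append, m1, m1, evR_append, rmV_eq, rmX_eq]
  push_cast
  ring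

theorem eY_eq (A y : ℝ) (D : ℕ → P2) : eY A y (fun j => evR A y (D j)) = evR A y (eYl D) := by
  unfold eY eYl
  rw [evR_append, m1, m1, evR_append, rmV_eq, rmY_eq]
  push_cast
  ring

/-- the local part in the format of the budget, generic moments -/
theorem gok_gen (hR : StRl) {c : ZC} {A : ℝ} {B : ℂ} {D : ℕ → P2} {EZ EX EY : P2} (ok : OKc c A B) (hρ : 100 ≤ c.rho)
    (hm : c.lam ≤ c.m) (hA : 0 ≤ A) (hZ : A + 2 * ‖B‖ ≤ 1 / 4)
    (hE : EH (PI c A B) A B (fun j => evR A ‖B‖ (D j))) (h1 : leR EZ (eZl D) = true) (h2 : leR EX (eXl D) = true)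
    (h3 : leR EY (eYl D) = true) {β ρ : ℝ → ℂ} (h : RB β ρ) :
    GOK A B ⟨rwZ dz qz, rwP dx qx, rwR dy qy, ofP EZ, ofP EX, ofP EY⟩ (fc ρ) (fc fun t => ((β t).re : ℂ))
      (fc fun t => ((β t).im : ℂ)) (mean fun t => ‖ρ t‖ ^ 2) (mean fun t => (β t).re ^ 2) (mean fun t => (β t).im ^ 2)
      (LinP (PI c A B) (b0I A B) (z0I A B) β ρ - TailL (PI c A B) (b0I A B) (z0I A B) β ρ) := by
  have hB := norm_nonneg B
  have hZ' : |A| + 2 * ‖B‖ ≤ 1 / 4 := by rwa [abs_of_nonneg hA]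
  have hM := mod_PI hStC Pool.Agent.Helper7.GX.hStX ok hE hA (by linarith)
  have h4 := (hStC c A B _ ok hE).2.2
  have h5 := hR c A B _ _ _ β ρ (by rw [abs_of_nonneg hA]; linarith)
    (Pool.Agent.Helper43.SH.reg_PI hZ' hρ hm) (Pool.Agent.Helper43.SH.dat_PI hZ') h4 hM h
  have e1 : 4 * (evR A ‖B‖ evo + rmV (fun j => evR A ‖B‖ (D j))) ≤ evN A ‖B‖ (ofP EZ) := by
    refine le_trans (le_of_eq ?_) ((leR_ok hA hB _ _ h1).trans (ofP_le hA hB _))
    rw [← eZ_eq]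
    rfl
  have e2 : 2 * (2 * (evR A ‖B‖ eve + rmV (fun j => evR A ‖B‖ (D j))) + rmX (fun j => evR A ‖B‖ (D j)))
      ≤ evN A ‖B‖ (ofP EX) := by
    refine le_trans (le_of_eq ?_) ((leR_ok hA hB _ _ h2).trans (ofP_le hA hB _))
    rw [← eX_eq]
    unfold eX
    ring
  have e3 : 2 * (7 / 2 * (evR A ‖B‖ eve + rmV (fun j => evR A ‖B‖ (D j))) + rmY (fun j => evR A ‖B‖ (D j)))
      ≤ evN A ‖B‖ (ofP EY) := by
    refine le_trans (le_of_eq ?_) ((leR_ok hA hB _ _ h3).trans (ofP_le hA hB _))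
    rw [← eY_eq]
    unfold eY
    ring
  unfold GOK
  refine h5.trans ?_
  have n1 := Pool.Agent.Helper26.SH.N2_nonneg (fun t => ‖ρ t‖)
  have n2 := Pool.Agent.Helper26.SH.N2_nonneg (fun t => (β t).re)
  have n3 := Pool.Agent.Helper26.SH.N2_nonneg (fun t => (β t).im)
  exact add_le_add (add_le_add (mul_le_mul_of_nonneg_right e1 n1) (mul_le_mul_of_nonneg_right e2 n2))
    (mul_le_mul_of_nonneg_right e3 n3)

end Pool.Agent.Helper7.GK
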